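import Pool.Agent.Helper549.Tri.Main19
import Pool.Agent.Helper549.Tri.Setup

/-!
# No triangle can be cut into nineteen congruent triangles
-/

set_option autoImplicit false

namespace Pool.Agent.Results.MP_a03157_co.NineteenNever

/-- the Euclidean plane -/
abbrev Plane := EuclideanSpace ℝ (Fin 2)

/-- the closed triangle with the vertices `v 0`, `v 1`, `v 2` -/
def Tri (v : Fin 3 → Plane) : Set Plane := convexHull ℝ (Set.range v)

/-- `P 0, …, P (N-1)` is a dissection of the triangle `T` into `N` congruent non-degenerate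
triangles (reflections allowed, not necessarily edge to edge) -/
structure Cut (T : Fin 3 → Plane) (N : ℕ) (P : Fin N → Fin 3 → Plane) : Prop where
  nondeg : ∀ i, AffineIndependent ℝ (P i)
  cong : ∀ i j, ∃ f : Plane ≃ᵢ Plane, f '' Tri (P i) = Tri (P j)
  union : (⋃ i, Tri (P i)) = Tri T
  disj : ∀ i j, i ≠ j → Disjoint (interior (Tri (P i))) (interior (Tri (P j)))

/-- `S(T)` of the problem -/
def S (T : Fin 3 → Plane) : Set ℕ := {N | 1 ≤ N ∧ ∃ P, Cut T N P}

open Pool.Agent.Helper549.Tri in
/-- `19 ∉ S(T)` for EVERY triangle `T`: no triangle can be cut into nineteen congruent triangles. -/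
theorem result (T : Fin 3 → Plane) (hT : AffineIndependent ℝ T) : 19 ∉ S T := by
  rintro ⟨-, P, h⟩
  have hdist : ∀ i, ∃ σ : Equiv.Perm (Fin 3), ∀ k l,
      dist (P i k) (P i l) = dist (P 0 (σ k)) (P 0 (σ l)) := by
    intro i
    obtain ⟨f, hf⟩ := h.cong 0 i
    exact Setup.cong_perm (P 0) (P i) (h.nondeg 0) (h.nondeg i) f hf
  obtain ⟨TC, t, τ, ℓ, θ, ρ, hd, hlen, hang, -⟩ := Setup.setup T P hT h.nondeg hdist h.union h.disj
  exact no_dis19 hd τ ℓ θ hlen hang

end Pool.Agent.Results.MP_a03157_co.NineteenNever
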