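import Pool.Agent.Helper549.Tri2.Main2

/-!
# Numbers of congruent triangles in dissections of a triangle: the squarefree part

`S(T)` is the set of `N` for which the triangle `T` can be cut into `N` congruent triangles.
-/

set_option autoImplicit false

namespace Pool.Agent.Results.MP_a03157_co.RationalTiles

/-- the Euclidean plane -/
abbrev Plane := EuclideanSpace ℝ (Fin 2)

/-- the closed triangle with the vertices `v 0`, `v 1`, `v 2` -/
def Tri (v : Fin 3 → Plane) : Set Plane := convexHull ℝ (Set.range v)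

/-- `P 0, …, P (N-1)` is a dissection of the triangle `T` into `N` congruent non-degenerate
triangles (reflections allowed, not necessarily edge to edge) -/
structure Cut (T : Fin 3 → Plane) (N : ℕ) (P : Fin N → Fin 3 → Plane) : Prop where
  nondeg : ∀ i, AffineIndependent ℝ (P i)
  cong : ∀ i j, ∃ f : Plane ≃ᵢ Plane, f '' Tri (P i) = Tri (P j)
  union : (⋃ i, Tri (P i)) = Tri T
  disj : ∀ i j, i ≠ j → Disjoint (interior (Tri (P i))) (interior (Tri (P j)))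

/-- `S(T)` of the problem -/
def S (T : Fin 3 → Plane) : Set ℕ := {N | 1 ≤ N ∧ ∃ P, Cut T N P}

/-- every angle of every piece is a rational multiple of `π` -/
def Rational {N : ℕ} (P : Fin N → Fin 3 → Plane) : Prop :=
  ∀ i k, ∃ q : ℚ, EuclideanGeometry.angle (P i (k + 1)) (P i k) (P i (k + 2)) = q * Real.pi

/-- the squarefree part of `N` divides `30030 = 2·3·5·7·11·13` -/
def NearSquare (N : ℕ) : Prop := ∃ d b : ℕ, d ∣ 30030 ∧ N = d * b ^ 2

/-- an arithmetic condition on `N`: `3 N = m n` where `m`, `n ≤ N` have the parity of `N`, and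
`3 ∣ m, n`, or `n ≤ m` and `9 m² + 30 m n + 9 n²` is a square, or `3 n ≤ m` and
`9 m² - 30 m n + 9 n²` is a square -/
def Cond (N : ℕ) : Prop := ∃ m n : ℕ, 0 < m ∧ 0 < n ∧ m * n = 3 * N ∧ m ≤ N ∧ n ≤ N ∧
  m % 2 = N % 2 ∧ n % 2 = N % 2 ∧
  ((3 ∣ m ∧ 3 ∣ n) ∨ (n ≤ m ∧ ∃ t : ℕ, t ^ 2 = 9 * m ^ 2 + 30 * m * n + 9 * n ^ 2) ∨
    (3 * n ≤ m ∧ ∃ t : ℕ, t ^ 2 + 30 * m * n = 9 * m ^ 2 + 9 * n ^ 2))

/-- `T` is equilateral and non-degenerate -/
def Equilateral (T : Fin 3 → Plane) : Prop :=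
  T 0 ≠ T 1 ∧ dist (T 0) (T 1) = dist (T 1) (T 2) ∧ dist (T 1) (T 2) = dist (T 2) (T 0)

open Pool.Agent.Helper549.Tri Pool.Agent.Helper549.Tri2 in
theorem rational_tiles (T : Fin 3 → Plane) (hT : AffineIndependent ℝ T) (N : ℕ) (hN : 1 ≤ N)
    (P : Fin N → Fin 3 → Plane) (h : Cut T N P) (hr : Rational P) : NearSquare N := by
  obtain ⟨d, b, hd, -, hN'⟩ := Count.form N (by omega) (fun l hl h17 => by
    rw [Nat.not_odd_iff_even]
    exact Main.rational_even T hT N P ⟨h.nondeg, h.cong, h.union, h.disj⟩ hr l hl h17)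
  exact ⟨d, b, hd, hN'⟩

open Pool.Agent.Helper549.Tri Pool.Agent.Helper549.Tri2 in
theorem equilateral_cond (T : Fin 3 → Plane) (hT : Equilateral T) (N : ℕ) (h : N ∈ S T) :
    NearSquare N ∨ Cond N := by
  obtain ⟨hN, P, hP⟩ := h
  exact Main.necessary T hT.1 hT.2.1 hT.2.2 N hN ⟨P, hP.nondeg, hP.cong, hP.union, hP.disj⟩

open Pool.Agent.Helper549.Tri Pool.Agent.Helper549.Tri2 in
theorem equilateral_count (T : Fin 3 → Plane) (hT : Equilateral T) (x : ℕ) :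
    (({N : ℕ | N ≤ x ∧ (¬ 3 ∣ N ∨ N % 4 = 2) ∧ N ∈ S T}.ncard : ℕ) : ℝ) ≤
      64 * (Nat.sqrt x : ℕ) + 2 * (4 * Nat.sqrt (3 * x) : ℕ) *
        (1 + Real.log ((4 * Nat.sqrt (3 * x) : ℕ) : ℝ)) ^ 2 := by
  refine le_trans ?_ (Main.count_good T hT.1 hT.2.1 hT.2.2 x)
  have hfin : {N : ℕ | 1 ≤ N ∧ N ≤ x ∧ (N % 3 ≠ 0 ∨ N % 4 = 2) ∧ CanCut T N}.Finite :=
    (Set.finite_Icc 1 x).subset (fun N hN => ⟨hN.1, hN.2.1⟩)
  have hsub : {N : ℕ | N ≤ x ∧ (¬ 3 ∣ N ∨ N % 4 = 2) ∧ N ∈ S T} ⊆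
      {N : ℕ | 1 ≤ N ∧ N ≤ x ∧ (N % 3 ≠ 0 ∨ N % 4 = 2) ∧ CanCut T N} := by
    rintro N ⟨h1, h2, h3, P, hP⟩
    refine ⟨h3, h1, ?_, P, hP.nondeg, hP.cong, hP.union, hP.disj⟩
    rcases h2 with h2 | h2
    · exact Or.inl (fun h => h2 (Nat.dvd_of_mod_eq_zero h))
    · exact Or.inr h2
  exact_mod_cast Set.ncard_le_ncard hsub hfin

/-- **(1)** In a dissection of ANY triangle into `N` congruent triangles whose angles are rational
multiples of `π`, the squarefree part of `N` divides `30030 = 2·3·5·7·11·13`.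
**(2)** For an equilateral triangle `T`, every `N ∈ S(T)` has a squarefree part dividing `30030`, or
satisfies the arithmetic condition `Cond N`.
**(3)** For an equilateral triangle `T`, the number of `N ≤ x` in `S(T)` that are not divisible by
`3`, or are `2` modulo `4`, is at most `64 √x + 8 √(3x) (1 + log (4 √(3x)))²`. -/
theorem result :
    (∀ T : Fin 3 → Plane, AffineIndependent ℝ T → ∀ N : ℕ, 1 ≤ N →
      ∀ P : Fin N → Fin 3 → Plane, Cut T N P → Rational P → NearSquare N) ∧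
    (∀ T : Fin 3 → Plane, Equilateral T → ∀ N ∈ S T, NearSquare N ∨ Cond N) ∧
    (∀ T : Fin 3 → Plane, Equilateral T → ∀ x : ℕ,
      (({N : ℕ | N ≤ x ∧ (¬ 3 ∣ N ∨ N % 4 = 2) ∧ N ∈ S T}.ncard : ℕ) : ℝ) ≤
        64 * (Nat.sqrt x : ℕ) + 2 * (4 * Nat.sqrt (3 * x) : ℕ) *
          (1 + Real.log ((4 * Nat.sqrt (3 * x) : ℕ) : ℝ)) ^ 2) :=
  ⟨rational_tiles, equilateral_cond, equilateral_count⟩

end Pool.Agent.Results.MP_a03157_co.RationalTiles
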